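import Pool.Agent.H21.NEssDefs

namespace Pool.Agent.Results.MP_0af3ab_al.LeftNotRight

open Pool.Agent.H21.NEss

def A : Type := ℤ × ℤ × ℤ × ℤ

instance : AddCommGroup A := inferInstanceAs (AddCommGroup (ℤ × ℤ × ℤ × ℤ))

def mu (x y : ℤ × ℤ × ℤ × ℤ) : ℤ × ℤ × ℤ × ℤ :=
  (x.1 * y.1, x.1 * y.2.1 + x.2.1 * y.1, x.1 * y.2.2.1 + x.2.2.1 * y.1 + x.2.1 * y.2.1,
    x.1 * y.2.2.2 + x.2.2.2 * y.1 + x.2.2.1 * y.2.1)

instance : NonAssocRing A :=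
  { (inferInstance : AddCommGroup A) with
    mul := mu
    one := ((1, 0, 0, 0) : ℤ × ℤ × ℤ × ℤ)
    left_distrib := fun (x y z : ℤ × ℤ × ℤ × ℤ) => show mu x (y + z) = mu x y + mu x z by
      simp [mu]; (repeat' constructor) <;> ring
    right_distrib := fun (x y z : ℤ × ℤ × ℤ × ℤ) => show mu (x + y) z = mu x z + mu y z by
      simp [mu]; (repeat' constructor) <;> ring
    zero_mul := fun (x : ℤ × ℤ × ℤ × ℤ) => show mu 0 x = 0 by simp [mu]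
    mul_zero := fun (x : ℤ × ℤ × ℤ × ℤ) => show mu x 0 = 0 by simp [mu]
    one_mul := fun (x : ℤ × ℤ × ℤ × ℤ) => show mu (1, 0, 0, 0) x = x by simp [mu]
    mul_one := fun (x : ℤ × ℤ × ℤ × ℤ) => show mu x (1, 0, 0, 0) = x by simp [mu] }

lemma assoc_eq (x y z : ℤ × ℤ × ℤ × ℤ) :
    assoc (R := A) x y z = ((0, 0, 0, x.2.1 * y.2.1 * z.2.1) : ℤ × ℤ × ℤ × ℤ) := by
  show mu (mu x y) z - mu x (mu y z) = _
  simp [mu]; (repeat' constructor) <;> ring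

lemma mem_nuc (x : ℤ × ℤ × ℤ × ℤ) : (x : A) ∈ nucleus A ↔ x.2.1 = 0 := by
  constructor
  · intro h
    have := (h ((0, 1, 0, 0) : ℤ × ℤ × ℤ × ℤ) ((0, 1, 0, 0) : ℤ × ℤ × ℤ × ℤ)).1
    rw [assoc_eq] at this
    have h2 := congrArg (fun t : ℤ × ℤ × ℤ × ℤ => t.2.2.2) this
    simp only at h2
    have h3 : ((0 : A) : ℤ × ℤ × ℤ × ℤ).2.2.2 = 0 := rfl
    rw [h3] at h2
    simpa using h2
  · intro h (a : ℤ × ℤ × ℤ × ℤ) (b : ℤ × ℤ × ℤ × ℤ)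
    rw [assoc_eq, assoc_eq, assoc_eq]
    simp only [h, zero_mul, mul_zero]
    exact ⟨rfl, rfl, rfl⟩

theorem result : ∃ (R : Type) (_ : NonAssocRing R), LeftNEss R ∧ ¬ RightNEss R := by
  refine ⟨A, inferInstance, ?_, ?_⟩
  · intro (r : ℤ × ℤ × ℤ × ℤ) hr
    by_cases h : r.2.1 = 0
    · refine ⟨1, (mem_nuc (1, 0, 0, 0)).2 rfl, ?_, by rwa [one_mul]⟩
      rw [one_mul]; exact (mem_nuc r).2 h
    · refine ⟨((0, 0, 1, 0) : ℤ × ℤ × ℤ × ℤ), (mem_nuc _).2 rfl, (mem_nuc (mu (0, 0, 1, 0) r)).2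
        (by simp [mu]), fun h0 => h ?_⟩
      have h2 := congrArg (fun t : ℤ × ℤ × ℤ × ℤ => t.2.2.2) (show mu (0, 0, 1, 0) r = 0 from h0)
      simpa [mu] using h2
  · intro h
    obtain ⟨x, hx, h1, h2⟩ := h ((0, 1, 0, 0) : ℤ × ℤ × ℤ × ℤ)
      (fun h0 => by simpa using (show ((0, 1, 0, 0) : ℤ × ℤ × ℤ × ℤ) = 0 from h0))
    have h3 := (mem_nuc x).1 hx
    have h4 := (mem_nuc (mu (0, 1, 0, 0) x)).1 h1
    apply h2
    show mu (0, 1, 0, 0) x = 0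
    simp [mu] at h4
    simp [mu, h3, h4]

end Pool.Agent.Results.MP_0af3ab_al.LeftNotRight
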